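import Mathlib

/-!
# The relaxed bridging constant `BGC` does not linearly control `bgc`
-/

set_option autoImplicit false

namespace Pool.Agent.Results.MP_936e79_co.NoLinearBound

/-- A simple cycle of length `n` in `G`, as an injective closed sequence of vertices. -/
structure Cyc {V : Type} (G : SimpleGraph V) (n : ℕ) where
  c : ZMod n → V
  three_le : 3 ≤ n
  inj : Function.Injective c
  adj : ∀ i : ZMod n, G.Adj (c i) (c (i + 1))

/-- The distance along a cycle of length `n` between its `i`-th and its `j`-th vertex. -/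
def cdist {n : ℕ} (i j : ZMod n) : ℕ := min (i - j).val (j - i).val

/-- `μ`-locally geodesic cycles. -/
def LocGeod {V : Type} {G : SimpleGraph V} {n : ℕ} (C : Cyc G n) (μ : ℕ) : Prop :=
  ∀ (i j : ZMod n) (l : ℕ), G.dist (C.c i) (C.c j) = l → cdist i j = l → l ≤ μ

/-- The `i`-th and the `j`-th vertex of `C` form a `k`-bridge. -/
def Bridge {V : Type} {G : SimpleGraph V} {n : ℕ} (C : Cyc G n) (k : ℕ) (i j : ZMod n) : Prop :=
  G.dist (C.c i) (C.c j) ≤ k ∧ k < cdist i j

/-- `S` is (the index set of) a side of non-`μ`-locality of `C`: the arc of length `μ + 1` from the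
`i`-th vertex to the `(i + μ + 1)`-th vertex, these two being at distance `μ + 1` both in `G` and
along `C`. -/
def IsSide {V : Type} {G : SimpleGraph V} {n : ℕ} (C : Cyc G n) (μ : ℕ) (S : Set (ZMod n)) :
    Prop :=
  ∃ i : ZMod n, G.dist (C.c i) (C.c (i + ((μ + 1 : ℕ) : ZMod n))) = μ + 1 ∧
    cdist i (i + ((μ + 1 : ℕ) : ZMod n)) = μ + 1 ∧
    S = {j | ∃ t : ℕ, t ≤ μ + 1 ∧ j = i + (t : ZMod n)}

/-- `bgc(G)`. -/
noncomputable def bgc {V : Type} (G : SimpleGraph V) : ℕ :=
  sInf {μ : ℕ | 1 ≤ μ ∧ ∀ (n : ℕ) (C : Cyc G n), ¬ LocGeod C μ →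
    ∀ S : Set (ZMod n), IsSide C μ S → ∃ v ∈ S, ∃ z ∉ S, Bridge C ((μ + 1) / 2) v z}

/-- `BGC(G)`. -/
noncomputable def BGC {V : Type} (G : SimpleGraph V) : ℕ :=
  sInf {μ : ℕ | 1 ≤ μ ∧ ∀ (n : ℕ) (C : Cyc G n), ¬ LocGeod C μ →
    ∃ v z : ZMod n, Bridge C ((μ + 1) / 2) v z}

/-! ### The graphs -/

/-- vertices `1, …, 2^(R+1) - 1`, the heap numbering of the complete binary tree of depth `R`. -/
abbrev Vx (R : ℕ) : Type := {m : ℕ // m ∈ Finset.Ico 1 (2 ^ (R + 1))}

/-- tree edges and horizontal edges. -/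
def adjN (a b : ℕ) : Prop :=
  b = a / 2 ∨ a = b / 2 ∨ (Nat.log 2 a = Nat.log 2 b ∧ (b = a + 1 ∨ a = b + 1))

/-- complete binary tree of depth `R` with a path added along every level. -/
def H (R : ℕ) : SimpleGraph (Vx R) where
  Adj a b := adjN a.1 b.1
  symm := ⟨by
    intro a b h
    unfold adjN at *
    rcases h with h | h | ⟨h1, h2⟩
    · exact Or.inr (Or.inl h)
    · exact Or.inl h
    · exact Or.inr (Or.inr ⟨h1.symm, h2.symm⟩)⟩
  loopless := ⟨by
    intro a h
    have ha := Finset.mem_Ico.mp a.2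
    unfold adjN at h
    rcases h with h | h | ⟨h1, h2⟩ <;> omega⟩

lemma H_adj {R : ℕ} {a b : Vx R} : (H R).Adj a b ↔ adjN a.1 b.1 := Iff.rfl

lemma vpos {R : ℕ} (a : Vx R) : 1 ≤ a.1 := (Finset.mem_Ico.mp a.2).1
lemma vlt {R : ℕ} (a : Vx R) : a.1 < 2 ^ (R + 1) := (Finset.mem_Ico.mp a.2).2

/-- the parent of a non-root vertex -/
def par {R : ℕ} (a : Vx R) (h : 2 ≤ a.1) : Vx R :=
  ⟨a.1 / 2, by have := vlt a; rw [Finset.mem_Ico]; omega⟩

lemma adj_par {R : ℕ} (a : Vx R) (h : 2 ≤ a.1) : (H R).Adj a (par a h) := Or.inl rfl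

def root (R : ℕ) : Vx R := ⟨1, by
  rw [Finset.mem_Ico]
  exact ⟨le_refl _, Nat.one_lt_two_pow (by omega)⟩⟩

lemma reach_root {R : ℕ} (k : ℕ) : ∀ a : Vx R, a.1 = k → (H R).Reachable a (root R) := by
  induction k using Nat.strong_induction_on with
  | _ k ih =>
  intro a ha
  by_cases h : 2 ≤ a.1
  · have h1 := ih (a.1 / 2) (by omega) (par a h) rfl
    exact (adj_par a h).reachable.trans h1
  · have : a = root R := by
      apply Subtype.ext
      have := vpos a
      show a.1 = 1
      omega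
    rw [this]

lemma conn (R : ℕ) : (H R).Connected := by
  have : Nonempty (Vx R) := ⟨root R⟩
  exact ⟨fun a b => (reach_root _ a rfl).trans (reach_root _ b rfl).symm⟩

/-- lower bounds for distances -/
lemma lip {R : ℕ} (f : ℕ → ℤ) (hf : ∀ a b : Vx R, (H R).Adj a b → f a.1 ≤ f b.1 + 1)
    (a b : Vx R) : f a.1 ≤ f b.1 + (H R).dist a b := by
  obtain ⟨p, hp⟩ := (conn R).exists_walk_length_eq_dist a b
  rw [← hp]
  clear hp
  induction p with
  | nil => simp
  | cons h p ih =>
    have := hf _ _ h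
    rw [SimpleGraph.Walk.length_cons]
    push_cast
    linarith

lemma log_half {a : ℕ} (h : 2 ≤ a) : Nat.log 2 a = Nat.log 2 (a / 2) + 1 := by
  rw [Nat.log_div_base]
  have : 1 ≤ Nat.log 2 a := Nat.log_pos (by norm_num) h
  omega

lemma level_lip {R : ℕ} (a b : Vx R) (h : (H R).Adj a b) :
    Nat.log 2 a.1 ≤ Nat.log 2 b.1 + 1 := by
  have ha := vpos a
  have hb := vpos b
  rcases h with h | h | ⟨h1, -⟩
  · rw [h, ← log_half (by omega)]
  · have := log_half (show 2 ≤ b.1 by omega)
    rw [← h] at this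
    omega
  · omega

/-- index inside its level -/
def idx (m : ℕ) : ℕ := m - 2 ^ (Nat.log 2 m)

lemma idx_add {m : ℕ} (h : 1 ≤ m) : 2 ^ (Nat.log 2 m) + idx m = m := by
  unfold idx
  have := Nat.pow_log_le_self 2 (show m ≠ 0 by omega)
  omega

lemma size_lip {R : ℕ} (a b : Vx R) (h : (H R).Adj a b) :
    Nat.size (idx a.1) ≤ Nat.size (idx b.1) + 1 := by
  have ha := vpos a
  have hb := vpos b
  have hia := idx_add ha
  have hib := idx_add hb
  have hlt : idx b.1 < 2 ^ (Nat.size (idx b.1)) := Nat.lt_size_self _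
  have hpow : 2 ^ (Nat.size (idx b.1) + 1) = 2 ^ (Nat.size (idx b.1)) * 2 := pow_succ _ _
  rcases h with h | h | ⟨h1, h2⟩
  · -- b parent of a
    have h2 := log_half (show 2 ≤ a.1 by omega)
    rw [← h] at h2
    rw [h2, pow_succ] at hia
    rw [Nat.size_le, hpow]
    omega
  · have h2 := log_half (show 2 ≤ b.1 by omega)
    rw [← h] at h2
    rw [h2, pow_succ] at hib
    rw [Nat.size_le, hpow]
    omega
  · rw [h1] at hia
    rw [Nat.size_le, hpow]
    have : 1 ≤ 2 ^ (Nat.size (idx b.1)) := Nat.one_le_two_pow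
    omega

lemma dist_ge_level {R : ℕ} (a b : Vx R) :
    Nat.log 2 a.1 ≤ Nat.log 2 b.1 + (H R).dist a b := by
  have := lip (fun m => (Nat.log 2 m : ℤ)) (fun a b h => by exact_mod_cast level_lip a b h) a b
  exact_mod_cast this

lemma dist_ge_size {R : ℕ} (a b : Vx R) :
    Nat.size (idx a.1) ≤ Nat.size (idx b.1) + (H R).dist a b := by
  have := lip (fun m => (Nat.size (idx m) : ℤ)) (fun a b h => by exact_mod_cast size_lip a b h) a b
  exact_mod_cast this

/-- horizontal distances -/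
lemma dist_le_sub {R : ℕ} (d : ℕ) : ∀ a b : Vx R, b.1 = a.1 + d →
    Nat.log 2 a.1 = Nat.log 2 b.1 → (H R).dist a b ≤ d := by
  induction d with
  | zero =>
    intro a b h _
    have : a = b := Subtype.ext (by omega)
    rw [this, SimpleGraph.dist_self]
  | succ d ih =>
    intro a b h hl
    have h1 := Nat.log_mono_right (b := 2) (show a.1 ≤ a.1 + d by omega)
    have h2 := Nat.log_mono_right (b := 2) (show a.1 + d ≤ b.1 by omega)
    let m : Vx R := ⟨a.1 + d, by
      have := vlt b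
      have := vpos a
      rw [Finset.mem_Ico]
      omega⟩
    have hm : (H R).dist a m ≤ d := ih a m rfl (by
      show Nat.log 2 a.1 = Nat.log 2 (a.1 + d)
      omega)
    have hmb : (H R).Adj m b := Or.inr (Or.inr ⟨by
      show Nat.log 2 (a.1 + d) = _
      omega, Or.inl (by show b.1 = a.1 + d + 1; omega)⟩)
    have := (conn R).dist_triangle (u := a) (v := m) (w := b)
    rw [SimpleGraph.dist_eq_one_iff_adj.mpr hmb] at this
    omega

lemma dist_le_abs {R : ℕ} (d : ℕ) (a b : Vx R) (h1 : a.1 ≤ b.1 + d) (h2 : b.1 ≤ a.1 + d)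
    (hl : Nat.log 2 a.1 = Nat.log 2 b.1) : (H R).dist a b ≤ d := by
  rcases le_total a.1 b.1 with h | h
  · have := dist_le_sub (b.1 - a.1) a b (by omega) hl
    omega
  · have := dist_le_sub (a.1 - b.1) b a (by omega) hl.symm
    rw [SimpleGraph.dist_comm]
    omega

lemma cdist_five {n : ℕ} (hn : 10 ≤ n) (i j : ZMod n) (h : j = i + 5) : cdist i j = 5 := by
  have : NeZero n := ⟨by omega⟩
  unfold cdist
  have e1 : i - j = -5 := by rw [h]; ring
  have e2 : j - i = 5 := by rw [h]; ring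
  have hv : ((5 : ZMod n)).val = 5 := by
    have : ((5 : ℕ) : ZMod n).val = 5 := ZMod.val_natCast_of_lt (by omega)
    exact_mod_cast this
  have hne : (5 : ZMod n) ≠ 0 := by
    intro h0
    rw [h0, ZMod.val_zero] at hv
    omega
  have : NeZero (5 : ZMod n) := ⟨hne⟩
  rw [e1, e2, ZMod.val_neg_of_ne_zero, hv]
  omega

/-- Every simple cycle of length at least ten has a `4`-bridge. -/
lemma exists_bridge {R n : ℕ} (C : Cyc (H R) n) (hn : 10 ≤ n) :
    ∃ v z : ZMod n, Bridge C 4 v z := by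
  have : NeZero n := ⟨by omega⟩
  -- the deepest level reached
  obtain ⟨i0, hi0⟩ := Finite.exists_max (fun i : ZMod n => Nat.log 2 (C.c i).1)
  set r := Nat.log 2 (C.c i0).1 with hr
  have hne2 : ∀ i : ZMod n, i ≠ i + 2 := by
    intro i h
    have : (2 : ZMod n) = 0 := by
      have := congrArg (fun x => x - i) h
      simpa using this.symm
    have h2 : ((2 : ℕ) : ZMod n) = 0 := by exact_mod_cast this
    rw [ZMod.natCast_eq_zero_iff] at h2
    have := Nat.le_of_dvd (by norm_num) h2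
    omega
  -- a place where the cycle enters that level
  obtain ⟨s, hs, hs'⟩ : ∃ s : ZMod n, Nat.log 2 (C.c (s + 1)).1 = r ∧
      Nat.log 2 (C.c s).1 ≠ r := by
    by_contra hcon
    push Not at hcon
    have hall : ∀ t : ℕ, Nat.log 2 (C.c (i0 - t)).1 = r := by
      intro t
      induction t with
      | zero => simp [hr]
      | succ t ih =>
        apply hcon
        rw [← ih]
        congr 3
        push_cast
        ring
    have hall' : ∀ i : ZMod n, Nat.log 2 (C.c i).1 = r := by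
      intro i
      have := hall (i0 - i).val
      rw [ZMod.natCast_zmod_val] at this
      simpa using this
    obtain ⟨j, hj⟩ := Finite.exists_max (fun i : ZMod n => (C.c i).1)
    have key : ∀ i : ZMod n, (H R).Adj (C.c i) (C.c j) → (C.c j).1 = (C.c i).1 + 1 := by
      intro i h
      have h1 := hall' i
      have h2 := hall' j
      have hmax := hj i
      have p1 := vpos (C.c i)
      have p2 := vpos (C.c j)
      rcases h with h | h | ⟨-, h | h⟩
      · exfalso
        have := log_half (show 2 ≤ (C.c i).1 by omega)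
        rw [← h] at this
        omega
      · exfalso
        have := log_half (show 2 ≤ (C.c j).1 by omega)
        rw [← h] at this
        omega
      · exact h
      · omega
    have e1 := key (j + 1) (C.adj j).symm
    have e2 := key (j - 1) (by
      have := C.adj (j - 1)
      rwa [sub_add_cancel] at this)
    have : C.c (j - 1) = C.c (j + 1) := Subtype.ext (by omega)
    have := C.inj this
    apply hne2 (j - 1)
    calc j - 1 = j + 1 := this
      _ = j - 1 + 2 := by ring
  -- levels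
  have hle : ∀ i : ZMod n, Nat.log 2 (C.c i).1 ≤ r := hi0
  -- a step off the level `r` goes to the parent
  have hpar : ∀ x y : Vx R, (H R).Adj x y → Nat.log 2 x.1 = r → Nat.log 2 y.1 ≤ r →
      (y.1 = x.1 / 2 ∧ 2 ≤ x.1) ∨ (Nat.log 2 y.1 = r ∧ (y.1 = x.1 + 1 ∨ x.1 = y.1 + 1)) := by
    intro x y h hx hy
    have p1 := vpos x
    have p2 := vpos y
    rcases h with h | h | ⟨h1, h2⟩
    · exact Or.inl ⟨h, by omega⟩
    · exfalso
      have := log_half (show 2 ≤ y.1 by omega)
      rw [← h] at this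
      omega
    · exact Or.inr ⟨by omega, h2⟩
  have step : ∀ i : ZMod n, (H R).Adj (C.c i) (C.c (i + 1)) := C.adj
  have h01 := step s
  have h12 := step (s + 1)
  have h23 := step (s + 2)
  have h34 := step (s + 3)
  have h45 := step (s + 4)
  have hm1 := step (s - 1)
  have e12 : s + 1 + 1 = s + 2 := by ring
  have e23 : s + 2 + 1 = s + 3 := by ring
  have e34 : s + 3 + 1 = s + 4 := by ring
  have e45 : s + 4 + 1 = s + 5 := by ring
  have em1 : s - 1 + 1 = s := by ring
  rw [e12] at h12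
  rw [e23] at h23
  rw [e34] at h34
  rw [e45] at h45
  rw [em1] at hm1
  have d1 : ∀ {x y : Vx R}, (H R).Adj x y → (H R).dist x y = 1 :=
    fun h => SimpleGraph.dist_eq_one_iff_adj.mpr h
  have tri : ∀ x y z : Vx R, (H R).dist x z ≤ (H R).dist x y + (H R).dist y z :=
    fun x y z => (conn R).dist_triangle
  -- `c s` is the parent of `c (s+1)`
  have a1 : (C.c s).1 = (C.c (s + 1)).1 / 2 ∧ 2 ≤ (C.c (s + 1)).1 := by
    rcases hpar _ _ h01.symm hs (hle s) with h | h
    · exact h
    · exact absurd h.1 hs'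
  have l0 := log_half a1.2
  rw [← a1.1] at l0
  -- `c (s+2)` is on level `r`
  have a2 : Nat.log 2 (C.c (s + 2)).1 = r ∧
      ((C.c (s + 2)).1 = (C.c (s + 1)).1 + 1 ∨ (C.c (s + 1)).1 = (C.c (s + 2)).1 + 1) := by
    rcases hpar _ _ h12 hs (hle _) with h | h
    · exfalso
      have : C.c s = C.c (s + 2) := Subtype.ext (by omega)
      exact hne2 s (C.inj this)
    · exact h
  rcases hpar _ _ h23 a2.1 (hle _) with h3 | h3
  · -- case A
    have l3 := log_half h3.2
    rw [← h3.1] at l3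
    have hd : (H R).dist (C.c s) (C.c (s + 3)) ≤ 1 := by
      apply dist_le_abs 1
      · omega
      · omega
      · omega
    refine ⟨s - 1, s + 4, ?_, ?_⟩
    · have t1 := tri (C.c (s - 1)) (C.c s) (C.c (s + 4))
      have t2 := tri (C.c s) (C.c (s + 3)) (C.c (s + 4))
      rw [d1 hm1] at t1
      rw [d1 h34] at t2
      omega
    · rw [cdist_five hn _ _ (by ring)]
      norm_num
  · rcases hpar _ _ h34 h3.1 (hle _) with h4 | h4
    · -- case B
      have l4 := log_half h4.2
      rw [← h4.1] at l4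
      have hd : (H R).dist (C.c s) (C.c (s + 4)) ≤ 1 := by
        apply dist_le_abs 1
        · omega
        · omega
        · omega
      refine ⟨s, s + 5, ?_, ?_⟩
      · have t1 := tri (C.c s) (C.c (s + 4)) (C.c (s + 5))
        rw [d1 h45] at t1
        omega
      · rw [cdist_five hn _ _ (by ring)]
        norm_num
    · -- case C
      have g4 : 2 ≤ (C.c (s + 4)).1 := by
        by_contra hcon
        have p := vpos (C.c (s + 4))
        have : (C.c (s + 4)).1 = 1 := by omega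
        rw [this] at h4
        simp at h4
        omega
      have l4 := log_half g4
      have hd : (H R).dist (C.c s) (par (C.c (s + 4)) g4) ≤ 2 := by
        apply dist_le_abs 2
        · show (C.c s).1 ≤ (C.c (s + 4)).1 / 2 + 2
          omega
        · show (C.c (s + 4)).1 / 2 ≤ (C.c s).1 + 2
          omega
        · show _ = Nat.log 2 ((C.c (s + 4)).1 / 2)
          omega
      refine ⟨s, s + 5, ?_, ?_⟩
      · have t1 := tri (C.c s) (C.c (s + 4)) (C.c (s + 5))
        have t2 := tri (C.c s) (par (C.c (s + 4)) g4) (C.c (s + 4))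
        rw [d1 h45] at t1
        rw [d1 (adj_par (C.c (s + 4)) g4).symm] at t2
        omega
      · rw [cdist_five hn _ _ (by ring)]
        norm_num

/-! ### The long cycle -/

/-- the `p`-th vertex of the cycle formed by the left boundary, the bottom level and the right
boundary. -/
def cN (R p : ℕ) : ℕ :=
  if p ≤ R then 2 ^ p
  else if p ≤ R + 2 ^ R - 1 then 2 ^ R + (p - R)
  else 2 ^ (2 * R + 2 ^ R - 1 - p + 1) - 1

lemma cN_left {R p : ℕ} (h : p ≤ R) : cN R p = 2 ^ p := by
  unfold cN; rw [if_pos h]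

lemma cN_mid {R p : ℕ} (h : R < p) (h' : p ≤ R + 2 ^ R - 1) : cN R p = 2 ^ R + (p - R) := by
  unfold cN; rw [if_neg (by omega), if_pos h']

lemma cN_right {R p q : ℕ} (hq : 1 ≤ q) (hqR : q < R) (h : p + q = 2 * R + 2 ^ R - 1) :
    cN R p = 2 ^ (q + 1) - 1 := by
  have h2 : 1 ≤ 2 ^ R := Nat.one_le_two_pow
  unfold cN
  rw [if_neg (by omega), if_neg (by omega)]
  have : 2 * R + 2 ^ R - 1 - p = q := by omega
  rw [this]

lemma cases_p {R p : ℕ} (hp : p < 2 * R + 2 ^ R - 1) :
    p ≤ R ∨ (R < p ∧ p ≤ R + 2 ^ R - 1) ∨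
      (∃ q, 1 ≤ q ∧ q < R ∧ p + q = 2 * R + 2 ^ R - 1) := by
  have h2 : 1 ≤ 2 ^ R := Nat.one_le_two_pow
  by_cases h : p ≤ R
  · exact Or.inl h
  by_cases h' : p ≤ R + 2 ^ R - 1
  · exact Or.inr (Or.inl ⟨by omega, h'⟩)
  · exact Or.inr (Or.inr ⟨2 * R + 2 ^ R - 1 - p, by omega, by omega, by omega⟩)

lemma cN_mem {R p : ℕ} (hp : p < 2 * R + 2 ^ R - 1) : cN R p ∈ Finset.Ico 1 (2 ^ (R + 1)) := by
  have h2 : 1 ≤ 2 ^ R := Nat.one_le_two_pow
  have h3 : 2 ^ (R + 1) = 2 ^ R * 2 := pow_succ _ _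
  rw [Finset.mem_Ico]
  rcases cases_p hp with h | ⟨h, h'⟩ | ⟨q, h1, h2', h3'⟩
  · rw [cN_left h]
    have := Nat.pow_le_pow_right (show 0 < 2 by norm_num) h
    have : 1 ≤ 2 ^ p := Nat.one_le_two_pow
    omega
  · rw [cN_mid h h']
    omega
  · rw [cN_right h1 h2' h3']
    have := Nat.pow_le_pow_right (show 0 < 2 by norm_num) (show q + 1 ≤ R by omega)
    have : 2 ^ 1 ≤ 2 ^ (q + 1) := Nat.pow_le_pow_right (by norm_num) (by omega)
    omega

lemma cN_inj {R p p' : ℕ} (hp : p < 2 * R + 2 ^ R - 1) (hp' : p' < 2 * R + 2 ^ R - 1)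
    (h : cN R p = cN R p') : p = p' := by
  have h2 : 1 ≤ 2 ^ R := Nat.one_le_two_pow
  have hodd : ∀ a b : ℕ, 2 ^ a = 2 ^ (b + 1) - 1 → b = 0 := by
    intro a b hab
    by_contra hb
    have e1 : 2 ^ (b + 1) = 2 ^ b * 2 := pow_succ _ _
    have e2 : 2 ^ 1 ≤ 2 ^ b := Nat.pow_le_pow_right (by norm_num) (by omega)
    rcases Nat.eq_zero_or_pos a with ha | ha
    · rw [ha] at hab; omega
    · obtain ⟨a', rfl⟩ : ∃ a', a = a' + 1 := ⟨a - 1, by omega⟩
      have e3 : 2 ^ (a' + 1) = 2 ^ a' * 2 := pow_succ _ _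
      omega
  have hinj : ∀ a b : ℕ, 2 ^ a = 2 ^ b → a = b := fun a b hab =>
    Nat.pow_right_injective (le_refl 2) hab
  rcases cases_p hp with a1 | ⟨a1, a2⟩ | ⟨q, a1, a2, a3⟩ <;>
    rcases cases_p hp' with b1 | ⟨b1, b2⟩ | ⟨q', b1, b2, b3⟩
  · rw [cN_left a1, cN_left b1] at h
    exact hinj _ _ h
  · rw [cN_left a1, cN_mid b1 b2] at h
    have := Nat.pow_le_pow_right (show 0 < 2 by norm_num) a1
    omega
  · rw [cN_left a1, cN_right b1 b2 b3] at h
    have := hodd _ _ h
    omega
  · rw [cN_mid a1 a2, cN_left b1] at h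
    have := Nat.pow_le_pow_right (show 0 < 2 by norm_num) b1
    omega
  · rw [cN_mid a1 a2, cN_mid b1 b2] at h
    omega
  · rw [cN_mid a1 a2, cN_right b1 b2 b3] at h
    have := Nat.pow_le_pow_right (show 0 < 2 by norm_num) (show q' + 1 ≤ R by omega)
    omega
  · rw [cN_right a1 a2 a3, cN_left b1] at h
    have := hodd _ _ h.symm
    omega
  · rw [cN_right a1 a2 a3, cN_mid b1 b2] at h
    have := Nat.pow_le_pow_right (show 0 < 2 by norm_num) (show q + 1 ≤ R by omega)
    omega
  · rw [cN_right a1 a2 a3, cN_right b1 b2 b3] at h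
    have e1 : 1 ≤ 2 ^ (q + 1) := Nat.one_le_two_pow
    have e2 : 1 ≤ 2 ^ (q' + 1) := Nat.one_le_two_pow
    have := hinj (q + 1) (q' + 1) (by omega)
    omega

lemma log_eq {R x : ℕ} (h1 : 2 ^ R ≤ x) (h2 : x < 2 ^ (R + 1)) : Nat.log 2 x = R :=
  Nat.log_eq_of_pow_le_of_lt_pow h1 h2

lemma cN_adj {R p : ℕ} (hR : 2 ≤ R) (hp : p < 2 * R + 2 ^ R - 1) :
    adjN (cN R p) (cN R ((p + 1) % (2 * R + 2 ^ R - 1))) := by
  have h2 : 2 ^ 2 ≤ 2 ^ R := Nat.pow_le_pow_right (by norm_num) hR
  have h3 : 2 ^ (R + 1) = 2 ^ R * 2 := pow_succ _ _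
  by_cases hlast : p + 1 = 2 * R + 2 ^ R - 1
  · rw [hlast, Nat.mod_self, cN_left (Nat.zero_le R), cN_right (le_refl 1) (by omega) hlast]
    left; norm_num
  rw [Nat.mod_eq_of_lt (by omega)]
  rcases cases_p hp with h | ⟨h, h'⟩ | ⟨q, h1, h2', h3'⟩
  · rcases Nat.lt_or_ge p R with hlt | hge
    · rw [cN_left h, cN_left (show p + 1 ≤ R by omega)]
      right; left
      rw [pow_succ]; omega
    · have : p = R := by omega
      subst this
      rw [cN_left h, cN_mid (by omega) (by omega)]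
      right; right
      constructor
      · rw [log_eq (R := p) (le_refl _) (by omega), log_eq (R := p) (by omega) (by omega)]
      · left; omega
  · rcases Nat.lt_or_ge p (R + 2 ^ R - 1) with hlt | hge
    · rw [cN_mid h h', cN_mid (by omega) (by omega)]
      right; right
      constructor
      · rw [log_eq (R := R) (by omega) (by omega), log_eq (R := R) (by omega) (by omega)]
      · left; omega
    · rw [cN_mid h h', cN_right (q := R - 1) (by omega) (by omega) (by omega)]
      left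
      have : R - 1 + 1 = R := by omega
      rw [this]
      omega
  · rw [cN_right h1 h2' h3', cN_right (q := q - 1) (by omega) (by omega) (by omega)]
    left
    have : q - 1 + 1 = q := by omega
    rw [this, pow_succ]
    have := Nat.one_le_two_pow (n := q)
    omega

/-- the boundary cycle -/
def bd (R : ℕ) (hR : 2 ≤ R) : Cyc (H R) (2 * R + 2 ^ R - 1) :=
  have hn : 2 * R + 2 ^ R - 1 ≠ 0 := by
    have h2 : 1 ≤ 2 ^ R := Nat.one_le_two_pow
    omega
  have : NeZero (2 * R + 2 ^ R - 1) := ⟨hn⟩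
  { c := fun i => ⟨cN R i.val, cN_mem (ZMod.val_lt i)⟩
    three_le := by
      have h2 : 2 ^ 2 ≤ 2 ^ R := Nat.pow_le_pow_right (by norm_num) hR
      omega
    inj := by
      intro i j h
      have h1 : cN R i.val = cN R j.val := congrArg Subtype.val h
      exact ZMod.val_injective _ (cN_inj (ZMod.val_lt i) (ZMod.val_lt j) h1)
    adj := by
      intro i
      have h1 := cN_adj hR (ZMod.val_lt i)
      have h2 : (i + 1).val = (i.val + 1) % (2 * R + 2 ^ R - 1) := by
        conv_lhs => rw [← ZMod.natCast_zmod_val i]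
        rw [← ZMod.val_natCast]
        push_cast
        rfl
      show adjN (cN R i.val) (cN R (i + 1).val)
      rw [h2]
      exact h1 }

lemma bd_c {R : ℕ} (hR : 2 ≤ R) (i : ZMod (2 * R + 2 ^ R - 1)) :
    ((bd R hR).c i).1 = cN R i.val := rfl

lemma dist_along {V : Type} {G : SimpleGraph V} (hG : G.Connected) {n : ℕ} (C : Cyc G n)
    (i : ZMod n) (t : ℕ) : G.dist (C.c i) (C.c (i + (t : ZMod n))) ≤ t := by
  induction t with
  | zero => simp
  | succ t ih =>
    have h1 := C.adj (i + (t : ZMod n))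
    have h2 := hG.dist_triangle (u := C.c i) (v := C.c (i + (t : ZMod n)))
      (w := C.c (i + (t : ZMod n) + 1))
    rw [SimpleGraph.dist_eq_one_iff_adj.mpr h1] at h2
    have e : i + ((t + 1 : ℕ) : ZMod n) = i + (t : ZMod n) + 1 := by push_cast; ring
    rw [e]
    omega

lemma cdist_le {n : ℕ} [NeZero n] (i j : ZMod n) (t : ℕ) (h : j = i + (t : ZMod n)) : cdist i j ≤ t := by
  unfold cdist
  apply le_trans (min_le_right _ _)
  have : j - i = (t : ZMod n) := by rw [h]; ring
  rw [this]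
  rw [ZMod.val_natCast]
  exact Nat.mod_le _ _

lemma cdist_eq {n : ℕ} (i : ZMod n) (t : ℕ) (ht : 1 ≤ t) (h : 2 * t ≤ n) :
    cdist i (i + (t : ZMod n)) = t := by
  have : NeZero n := ⟨by omega⟩
  unfold cdist
  have e1 : i - (i + (t : ZMod n)) = -(t : ZMod n) := by ring
  have e2 : i + (t : ZMod n) - i = (t : ZMod n) := by ring
  have hv : ((t : ZMod n)).val = t := ZMod.val_natCast_of_lt (by omega)
  have hne : (t : ZMod n) ≠ 0 := by
    intro h0
    rw [h0, ZMod.val_zero] at hv
    omega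
  have : NeZero (t : ZMod n) := ⟨hne⟩
  rw [e1, e2, ZMod.val_neg_of_ne_zero, hv]
  omega

lemma cdist_comm {n : ℕ} (i j : ZMod n) : cdist i j = cdist j i := min_comm _ _

/-- The defining property of `bgc` fails for small `μ`. -/
lemma prop_fails {R μ : ℕ} (hR : 4 * μ + 10 ≤ R) : ∃ (n : ℕ) (C : Cyc (H R) n) (S : Set (ZMod n)),
    ¬ LocGeod C μ ∧ IsSide C μ S ∧ ∀ v ∈ S, ∀ z : ZMod n, ¬ Bridge C ((μ + 1) / 2) v z := by
  have hR2 : 2 ≤ R := by omega
  have hRp : R < 2 ^ R := Nat.lt_two_pow_self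
  have hnz : NeZero (2 * R + 2 ^ R - 1) := ⟨by omega⟩
  set n := 2 * R + 2 ^ R - 1 with hn
  set k := (μ + 1) / 2 with hk
  set a : ℕ := μ + 3 with ha
  have hlev : ∀ i : ZMod n, i.val ≤ R → Nat.log 2 ((bd R hR2).c i).1 = i.val := by
    intro i hi
    rw [bd_c, cN_left hi, Nat.log_pow (by norm_num)]
  have hval : ∀ t : ℕ, t ≤ μ + 1 → ((a : ZMod n) + (t : ZMod n)).val = a + t := by
    intro t ht
    have : (a : ZMod n) + (t : ZMod n) = ((a + t : ℕ) : ZMod n) := by push_cast; rfl
    rw [this]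
    exact ZMod.val_natCast_of_lt (by omega)
  have hd : (H R).dist ((bd R hR2).c (a : ZMod n))
      ((bd R hR2).c ((a : ZMod n) + ((μ + 1 : ℕ) : ZMod n))) = μ + 1 := by
    apply le_antisymm
    · exact dist_along (conn R) _ _ _
    · have h0 : ((a : ZMod n)).val = a := ZMod.val_natCast_of_lt (by omega)
      have h1 := hlev (a : ZMod n) (by omega)
      have h2 := hlev ((a : ZMod n) + ((μ + 1 : ℕ) : ZMod n)) (by
        rw [hval _ (le_refl _)]; omega)
      rw [hval _ (le_refl _)] at h2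
      have h3 := dist_ge_level ((bd R hR2).c ((a : ZMod n) + ((μ + 1 : ℕ) : ZMod n)))
        ((bd R hR2).c (a : ZMod n))
      rw [h1, h2, SimpleGraph.dist_comm] at h3
      omega
  have hcd : cdist (a : ZMod n) ((a : ZMod n) + ((μ + 1 : ℕ) : ZMod n)) = μ + 1 :=
    cdist_eq _ _ (by omega) (by omega)
  refine ⟨n, bd R hR2, {j | ∃ t : ℕ, t ≤ μ + 1 ∧ j = (a : ZMod n) + (t : ZMod n)}, ?_, ?_, ?_⟩
  · intro hL
    have := hL _ _ _ hd hcd
    omega
  · exact ⟨(a : ZMod n), hd, hcd, rfl⟩
  · rintro v ⟨t, ht, rfl⟩ z ⟨hb1, hb2⟩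
    have hv := hval t ht
    set v : ZMod n := (a : ZMod n) + (t : ZMod n) with hvdef
    have hlv := hlev v (by omega)
    have hzcast : ((z.val : ℕ) : ZMod n) = z := ZMod.natCast_zmod_val z
    have hvcast : ((v.val : ℕ) : ZMod n) = v := ZMod.natCast_zmod_val v
    have hlvz := dist_ge_level ((bd R hR2).c v) ((bd R hR2).c z)
    have hlzv := dist_ge_level ((bd R hR2).c z) ((bd R hR2).c v)
    rw [SimpleGraph.dist_comm] at hlzv
    rcases cases_p (ZMod.val_lt z) with h | ⟨h, h'⟩ | ⟨q, h1, h2', h3'⟩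
    · have hlz := hlev z h
      rw [hlv, hlz] at hlvz hlzv
      rcases le_total v.val z.val with hle | hle
      · have := cdist_le v z (z.val - v.val) (by
          rw [Nat.cast_sub hle, hzcast, hvcast]; ring)
        omega
      · have := cdist_le z v (v.val - z.val) (by
          rw [Nat.cast_sub hle, hzcast, hvcast]; ring)
        rw [cdist_comm] at this
        omega
    · have hlz : Nat.log 2 ((bd R hR2).c z).1 = R := by
        rw [bd_c, cN_mid h h']
        apply log_eq
        · omega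
        · rw [pow_succ]; omega
      rw [hlv, hlz] at hlzv
      omega
    · have hq1 : 2 ^ (q + 1) = 2 ^ q * 2 := pow_succ _ _
      have hq2 : 1 ≤ 2 ^ q := Nat.one_le_two_pow
      have hlz : Nat.log 2 ((bd R hR2).c z).1 = q := by
        rw [bd_c, cN_right h1 h2' h3']
        apply log_eq
        · omega
        · omega
      have hsz := dist_ge_size ((bd R hR2).c z) ((bd R hR2).c v)
      have hi1 : idx ((bd R hR2).c v).1 = 0 := by
        unfold idx
        rw [hlv, bd_c, cN_left (show v.val ≤ R by omega)]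
        omega
      have hi2 : idx ((bd R hR2).c z).1 = 2 ^ q - 1 := by
        unfold idx
        rw [hlz, bd_c, cN_right h1 h2' h3']
        omega
      have hq3 : q - 1 < Nat.size (2 ^ q - 1) := by
        rw [Nat.lt_size]
        have : 2 ^ q = 2 ^ (q - 1) * 2 := by
          rw [← pow_succ]; congr 1; omega
        have : 1 ≤ 2 ^ (q - 1) := Nat.one_le_two_pow
        omega
      rw [hi1, hi2, Nat.size_zero, SimpleGraph.dist_comm] at hsz
      rw [hlv, hlz] at hlvz
      omega

lemma cdist_lt {n : ℕ} (hn : 3 ≤ n) (i j : ZMod n) : 2 * cdist i j ≤ n := by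
  have : NeZero n := ⟨by omega⟩
  unfold cdist
  have e : j - i = -(i - j) := by ring
  by_cases h : i - j = 0
  · rw [h]; simp
  · have : NeZero (i - j) := ⟨h⟩
    rw [e, ZMod.val_neg_of_ne_zero]
    omega

lemma BGC_le (R : ℕ) : BGC (H R) ≤ 7 := by
  apply Nat.sInf_le
  refine ⟨by norm_num, ?_⟩
  intro n C hC
  by_cases hn : 10 ≤ n
  · exact exists_bridge C hn
  · exfalso
    apply hC
    intro i j l _ h2
    have := cdist_lt C.three_le i j
    omega

/-- For every constant `c` there is a finite connected graph `G` with `bgc(G) > c · BGC(G)`. -/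
theorem result : ∀ c : ℝ, ∃ (V : Type) (_ : Fintype V) (G : SimpleGraph V), G.Connected ∧
    c * (BGC G : ℝ) < (bgc G : ℝ) := by
  intro c
  obtain ⟨M, hM⟩ := exists_nat_gt c
  refine ⟨Vx (28 * M + 10), inferInstance, H (28 * M + 10), conn _, ?_⟩
  have h1 : 7 * M < bgc (H (28 * M + 10)) := by
    by_contra hcon
    push Not at hcon
    have hne : {μ : ℕ | 1 ≤ μ ∧ ∀ (n : ℕ) (C : Cyc (H (28 * M + 10)) n), ¬ LocGeod C μ →
        ∀ S : Set (ZMod n), IsSide C μ S →
          ∃ v ∈ S, ∃ z ∉ S, Bridge C ((μ + 1) / 2) v z}.Nonempty := by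
      refine ⟨Fintype.card (Vx (28 * M + 10)) + 1, by simp, ?_⟩
      intro n C hC
      exfalso
      apply hC
      intro i j l _ h2
      have : NeZero n := ⟨by have := C.three_le; omega⟩
      have hcard := Fintype.card_le_of_injective C.c C.inj
      rw [ZMod.card] at hcard
      have := cdist_lt C.three_le i j
      omega
    obtain ⟨h1, h2⟩ := Nat.sInf_mem hne
    obtain ⟨n, C, S, hC, hS, hno⟩ := prop_fails (R := 28 * M + 10)
      (μ := bgc (H (28 * M + 10))) (by omega)
    obtain ⟨v, hv, z, -, hb⟩ := h2 n C hC S hS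
    exact hno v hv z hb
  have h2 := BGC_le (28 * M + 10)
  have h3 : (BGC (H (28 * M + 10)) : ℝ) ≤ 7 := by exact_mod_cast h2
  have h4 : (7 : ℝ) * M < bgc (H (28 * M + 10)) := by exact_mod_cast h1
  have h5 : (0 : ℝ) ≤ (BGC (H (28 * M + 10)) : ℝ) := Nat.cast_nonneg _
  have h6 : (0 : ℝ) ≤ (M : ℝ) := Nat.cast_nonneg _
  calc c * (BGC (H (28 * M + 10)) : ℝ) ≤ M * (BGC (H (28 * M + 10)) : ℝ) :=
        mul_le_mul_of_nonneg_right hM.le h5
    _ ≤ M * 7 := mul_le_mul_of_nonneg_left h3 h6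
    _ < _ := by linarith

end Pool.Agent.Results.MP_936e79_co.NoLinearBound
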